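import Pool.Agent.helper60.EPT.SpecS

/-! Row `sr:DSZ` (MP_2b48c2_lc): the size of a list of clauses. -/

set_option autoImplicit false

namespace Pool.Agent.EPT

open D

theorem DSZ_sum (l : List D) (M : ℕ) (h : ∀ a ∈ l, a.size ≤ M) : (l.map size).sum ≤ l.length * M := by
  induction l with
  | nil => simp
  | cons a l ih =>
    rw [List.map_cons, List.sum_cons, List.length_cons, Nat.add_mul, one_mul]
    have h1 := h a (by simp)
    have h2 := ih (fun b hb => h b (by simp [hb]))
    omega

theorem DSZ_size (x : D) (M : ℕ) (h : ∀ a ∈ x.toList, a.size ≤ M) : x.size ≤ x.toList.length * (M + 1) + 1 := by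
  have h1 := size_ofList x.toList
  rw [ofList_toList] at h1
  have h2 := DSZ_sum x.toList M h
  rw [Nat.mul_add, mul_one]
  omega

theorem DSZ_card (a : ℕ) (Λ : Finset D) (G : Finset (Finset D)) (h : Good a Λ G) : G.card ≤ (Λ.card + 1) ^ 3 := by
  have h1 : G ⊆ (Λ.powersetCard 1 ∪ Λ.powersetCard 2) ∪ Λ.powersetCard 3 := by
    intro C hC
    obtain ⟨h2, h3⟩ := h.card C hC
    have h4 := h.sub C hC
    rw [Finset.mem_union, Finset.mem_union, Finset.mem_powersetCard, Finset.mem_powersetCard, Finset.mem_powersetCard]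
    have h5 : C.card = 1 ∨ C.card = 2 ∨ C.card = 3 := by omega
    rcases h5 with h5 | h5 | h5
    · exact Or.inl (Or.inl ⟨h4, h5⟩)
    · exact Or.inl (Or.inr ⟨h4, h5⟩)
    · exact Or.inr ⟨h4, h5⟩
  have h2 := Finset.card_le_card h1
  have h3 := Finset.card_union_le (Λ.powersetCard 1 ∪ Λ.powersetCard 2) (Λ.powersetCard 3)
  have h4 := Finset.card_union_le (Λ.powersetCard 1) (Λ.powersetCard 2)
  rw [Finset.card_powersetCard] at h3
  rw [Finset.card_powersetCard, Finset.card_powersetCard] at h4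
  have h5 := Nat.choose_le_pow Λ.card 1
  have h6 := Nat.choose_le_pow Λ.card 2
  have h7 := Nat.choose_le_pow Λ.card 3
  have h8 : Λ.card ^ 1 + Λ.card ^ 2 + Λ.card ^ 3 ≤ (Λ.card + 1) ^ 3 := by
    have : (Λ.card + 1) ^ 3 = Λ.card ^ 3 + 3 * Λ.card ^ 2 + 3 * Λ.card + 1 := by ring
    rw [this]
    nlinarith [Nat.zero_le (Λ.card), Nat.zero_le (Λ.card ^ 2)]
  omega

theorem DSZ : DSZ_stmt := by
  intro a B Λ F hN hG hB
  obtain ⟨hN1, hN2⟩ := hN
  have hlen : F.toList.length = (fs F).card := by
    unfold fs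
    rw [List.toFinset_card_of_nodup hN1, List.length_map]
  refine ⟨?_, hlen⟩
  have hc : ∀ c ∈ F.toList, c.size ≤ 3 * B + 4 := by
    intro c hc
    have h1 : cs c ∈ fs F := by
      unfold fs
      rw [List.mem_toFinset]
      exact List.mem_map_of_mem hc
    have h2 : c.toList.length ≤ 3 := by
      have h3 := (hG.card _ h1).2
      have h4 : (cs c).card = c.toList.length := by
        unfold cs
        rw [List.toFinset_card_of_nodup (hN2 c hc)]
      omega
    have h5 : ∀ l ∈ c.toList, l.size ≤ B := by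
      intro l hl
      apply hB
      apply hG.sub _ h1
      unfold cs
      rwa [List.mem_toFinset]
    have h6 := DSZ_size c B h5
    have h7 : c.toList.length * (B + 1) ≤ 3 * (B + 1) := Nat.mul_le_mul_right _ h2
    omega
  have h8 := DSZ_size F (3 * B + 4) hc
  have h9 := DSZ_card a Λ (fs F) hG
  rw [← hlen] at h9
  have h10 : F.toList.length * (3 * B + 4 + 1) ≤ (Λ.card + 1) ^ 3 * (3 * B + 5) := Nat.mul_le_mul_right _ h9
  omega

end Pool.Agent.EPT
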