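import Pool.Agent.helper60.EPT.Spec

/-! Row `eth:TUS` (MP_2b48c2_lc): the size of the list of the tuples. -/

set_option autoImplicit false

namespace Pool.Agent.EPT

open D

theorem TUS_len (U L : D) : (prd U L).toList.length = U.toList.length * L.toList.length := by
  unfold prd
  rw [toList_ofList, List.length_flatMap]
  simp

theorem TUS_mem (U L a : D) (h : a ∈ (prd U L).toList) : ∃ u ∈ U.toList, ∃ l ∈ L.toList, a = cons u l := by
  unfold prd at h
  rw [toList_ofList, List.mem_flatMap] at h
  obtain ⟨u, hu, h2⟩ := h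
  obtain ⟨l, hl, h3⟩ := List.mem_map.1 h2
  exact ⟨u, hu, l, hl, h3.symm⟩

theorem TUS_inv (U : D) (i : ℕ) : ((prd U)^[i] (cons nil nil)).toList.length ≤ U.size ^ i ∧
    ∀ a ∈ ((prd U)^[i] (cons nil nil)).toList, a.size ≤ i * U.size + 1 := by
  induction i with
  | zero => simp
  | succ i ih =>
    rw [Function.iterate_succ_apply']
    constructor
    · rw [TUS_len, pow_succ, mul_comm]
      have h1 := length_le_size U
      exact Nat.mul_le_mul ih.1 (by omega)
    · intro a ha
      obtain ⟨u, hu, l, hl, rfl⟩ := TUS_mem _ _ _ ha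
      have h1 := size_mem U u hu
      have h2 := ih.2 l hl
      rw [size_cons]
      have h3 : (i + 1) * U.size = i * U.size + U.size := by ring
      omega

theorem TUS_sum (l : List D) (M : ℕ) (h : ∀ a ∈ l, a.size ≤ M) : (l.map size).sum ≤ l.length * M := by
  induction l with
  | nil => simp
  | cons a l ih =>
    rw [List.map_cons, List.sum_cons, List.length_cons, Nat.add_mul, one_mul]
    have h1 := h a (by simp)
    have h2 := ih (fun b hb => h b (by simp [hb]))
    omega

theorem TUS (hTUM : TUM_stmt) : TUS_stmt := by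
  intro U i
  have _ := hTUM
  obtain ⟨h1, h2⟩ := TUS_inv U i
  obtain ⟨T, hT⟩ : ∃ T, T = (prd U)^[i] (cons nil nil) := ⟨_, rfl⟩
  rw [← hT] at h1 h2 ⊢
  have h3 := size_ofList T.toList
  rw [ofList_toList] at h3
  have h4 := TUS_sum T.toList _ h2
  have h5 : T.toList.length * (i * U.size + 1) + T.toList.length ≤ U.size ^ i * (i * U.size + 2) := by
    calc T.toList.length * (i * U.size + 1) + T.toList.length = T.toList.length * (i * U.size + 2) := by ring
      _ ≤ U.size ^ i * (i * U.size + 2) := Nat.mul_le_mul_right _ h1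
  have h6 : U.size ^ i * (i * U.size + 2) ≤ U.size ^ i * (i + 2) * (U.size + 2) := by
    rw [mul_assoc]
    apply Nat.mul_le_mul_left
    nlinarith [Nat.zero_le i, Nat.zero_le U.size]
  omega

end Pool.Agent.EPT
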